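import Mathlib
import Pool.Agent.V11212.RW.Sys

/-!
MP_38bcdd_an, Q1 (negated form): a non-orthogonal Riesz wavelet collection in `L²(ℝ)` whose
frequency set does not tile multiplicatively with any constant multiplicity.
-/

set_option autoImplicit false

open MeasureTheory Set FourierTransform

namespace Pool.Agent.Results.MP_38bcdd_an.NoMultiTiling

open Pool.Agent.V11212.RW (wav IsRieszBasis)

/-- The data of the problem on the group `G = ℝ` (whose topological automorphisms are `x ↦ a x`,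
`a ≠ 0`, with modulus `|a|` and dual action `ξ ↦ a ξ`): pairwise disjoint measurable sets `Ω i` of
finite positive measure, countable sets `A` of automorphisms and `Λ i` of translations, the
functions `ψ i` with `ψ̂ i = 1_{Ω i}` and the system
`v (i, λ, a) = |a|^{1/2} ψ i (a x - λ)`. -/
structure IsSystem {m : ℕ} (Ω : Fin m → Set ℝ) (A : Set ℝ) (Λ : Fin m → Set ℝ)
    (ψ : Fin m → Lp ℂ 2 (volume : Measure ℝ))
    (v : ((i : Fin m) × (Λ i) × A) → Lp ℂ 2 (volume : Measure ℝ)) : Prop where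
  countable_A : A.Countable
  ne_zero : ∀ a ∈ A, a ≠ 0
  countable_Λ : ∀ i, (Λ i).Countable
  measurable_Ω : ∀ i, MeasurableSet (Ω i)
  pos_Ω : ∀ i, 0 < volume (Ω i)
  finite_Ω : ∀ i, volume (Ω i) < ⊤
  disjoint_Ω : ∀ i j, i ≠ j → Disjoint (Ω i) (Ω j)
  hat_ψ : ∀ i, (𝓕 (ψ i) : Lp ℂ 2 (volume : Measure ℝ)) =ᵐ[volume] (Ω i).indicator (fun _ => (1 : ℂ))
  system : ∀ (i : Fin m) (l : Λ i) (a : A), v ⟨i, l, a⟩ =ᵐ[volume] wav (ψ i) l a

/-- `Σ_{a ∈ A} 1_{aΩ}(ξ)` -/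
noncomputable def multiplicity (A Ω : Set ℝ) (ξ : ℝ) : ℕ∞ :=
  {a : ℝ | a ∈ A ∧ ξ ∈ (fun η => a * η) '' Ω}.encard

open Pool.Agent.V11212.RW in
/-- the index equivalence -/
theorem exists_equiv : ∃ e : KK ≃ ((i : Fin 3) × (range (fun k : ℤ => cc i * k)) ×
    (range (fun n : ℤ => (2 : ℝ) ^ n))), ∀ κ : KK, e κ =
      ⟨κ.1.1, ⟨cc κ.1.1 * κ.2, ⟨κ.2, rfl⟩⟩, ⟨2 ^ κ.1.2, ⟨κ.1.2, rfl⟩⟩⟩ := by
  have hc : ∀ i : Fin 3, cc i ≠ 0 := by
    intro i
    fin_cases i <;> simp [cc]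
  refine ⟨Equiv.ofBijective (fun κ : KK =>
    ⟨κ.1.1, ⟨cc κ.1.1 * κ.2, ⟨κ.2, rfl⟩⟩, ⟨2 ^ κ.1.2, ⟨κ.1.2, rfl⟩⟩⟩) ⟨?_, ?_⟩, fun κ => rfl⟩
  · rintro ⟨⟨i, n⟩, k⟩ ⟨⟨i', n'⟩, k'⟩ h
    have h0 : i = i' := congrArg Sigma.fst h
    subst h0
    have h1 := eq_of_heq (Sigma.mk.inj_iff.1 h).2
    have h2 : cc i * (k : ℝ) = cc i * (k' : ℝ) := congrArg (fun p => (p.1 : ℝ)) h1
    have h3 : (2 : ℝ) ^ n = 2 ^ n' := congrArg (fun p => (p.2 : ℝ)) h1
    have h4 : k = k' := by exact_mod_cast mul_left_cancel₀ (hc i) h2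
    have h5 : n = n' := by
      have := zpow_right_injective₀ (by norm_num : (0 : ℝ) < 2) (by norm_num : (2 : ℝ) ≠ 1)
      exact this h3
    rw [h4, h5]
  · rintro ⟨i, ⟨_, ⟨k, rfl⟩⟩, ⟨_, ⟨n, rfl⟩⟩⟩
    exact ⟨((i, n), k), rfl⟩

theorem wav_congr {f g : ℝ → ℂ} (h : f =ᵐ[volume] g) (l : ℝ) {a : ℝ} (ha : a ≠ 0) :
    wav f l a =ᵐ[volume] wav g l a := by
  have hq1 : Measure.QuasiMeasurePreserving (fun x : ℝ => a * x) volume volume := by
    refine ⟨by fun_prop, ?_⟩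
    rw [Real.map_volume_mul_left ha]
    exact Measure.smul_absolutelyContinuous
  have hq2 : Measure.QuasiMeasurePreserving (fun x : ℝ => x - l) volume volume :=
    (measurePreserving_sub_right volume l).quasiMeasurePreserving
  have hq := hq2.comp hq1
  filter_upwards [hq.ae_eq_comp h] with x hx
  unfold wav
  congr 1

open Pool.Agent.V11212.RW in
theorem mult_gt {ξ : ℝ} (h1 : 1 < ξ) (h2 : ξ ≤ 3 / 2) :
    2 ≤ multiplicity (range (fun n : ℤ => (2 : ℝ) ^ n)) (⋃ i, Om i) ξ := by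
  have hs : ({1, 2⁻¹} : Set ℝ) ⊆
      {a : ℝ | a ∈ range (fun n : ℤ => (2 : ℝ) ^ n) ∧ ξ ∈ (fun η => a * η) '' (⋃ i, Om i)} := by
    rintro a (rfl | rfl)
    · refine ⟨⟨0, by simp⟩, ⟨ξ, ?_, by simp⟩⟩
      rw [mem_iUnion]
      refine ⟨0, ?_⟩
      show ξ ∈ Ioc (1 : ℝ) 2
      exact ⟨h1, by linarith⟩
    · refine ⟨⟨-1, by simp⟩, ⟨2 * ξ, ?_, by simp⟩⟩
      rw [mem_iUnion]
      refine ⟨1, ?_⟩
      show 2 * ξ ∈ Ioc (2 : ℝ) 3
      exact ⟨by linarith, by linarith⟩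
  have h3 : ({1, 2⁻¹} : Set ℝ).encard = 2 := by
    apply Set.encard_pair
    norm_num
  rw [← h3]
  exact Set.encard_le_encard hs

open Pool.Agent.V11212.RW in
theorem mult_one {ξ : ℝ} (h1 : 3 / 2 < ξ) (h2 : ξ ≤ 2) :
    multiplicity (range (fun n : ℤ => (2 : ℝ) ^ n)) (⋃ i, Om i) ξ = 1 := by
  have hs : {a : ℝ | a ∈ range (fun n : ℤ => (2 : ℝ) ^ n) ∧ ξ ∈ (fun η => a * η) '' (⋃ i, Om i)} =
      {1} := by
    ext a
    rw [mem_singleton_iff, Set.mem_ofPred_eq]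
    constructor
    · rintro ⟨⟨n, rfl⟩, ⟨η, hη, hξ⟩⟩
      rw [mem_iUnion] at hη
      obtain ⟨i, hi⟩ := hη
      have hp : (0 : ℝ) < 2 ^ n := by positivity
      have hξ' : 2 ^ n * η = ξ := hξ
      have e0 : (2 : ℝ) ^ (0 : ℤ) < ξ := by
        rw [zpow_zero]
        linarith
      have e1 : ξ ≤ (2 : ℝ) ^ ((0 : ℤ) + 1) := by
        rw [zp1, zpow_zero]
        linarith
      fin_cases i
      · have hi' : 1 < η ∧ η ≤ 2 := hi
        have e2 : (2 : ℝ) ^ n < ξ := by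
          rw [← hξ']
          nlinarith [hi'.1]
        have e3 : ξ ≤ (2 : ℝ) ^ (n + 1) := by
          rw [← hξ', zp1]
          nlinarith [hi'.2]
        have := dyadic_unique e2 e3 e0 e1
        simp [this]
      · exfalso
        have hi' : 2 < η ∧ η ≤ 3 := hi
        have e2 : (2 : ℝ) ^ (n + 1) < ξ := by
          rw [← hξ', zp1]
          nlinarith [hi'.1]
        have e3 : ξ ≤ (2 : ℝ) ^ (n + 1 + 1) := by
          rw [← hξ', zp1, zp1]
          nlinarith [hi'.2]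
        have h4 := dyadic_unique e2 e3 e0 e1
        have h5 : n = -1 := by omega
        rw [h5] at hξ'
        norm_num at hξ'
        linarith [hi'.2]
      · exfalso
        have hi' : -2 < η ∧ η ≤ -1 := hi
        have : 2 ^ n * η < 0 := mul_neg_of_pos_of_neg hp (by linarith [hi'.2])
        linarith
    · rintro rfl
      refine ⟨⟨0, by simp⟩, ⟨ξ, ?_, by simp⟩⟩
      rw [mem_iUnion]
      refine ⟨0, ?_⟩
      show ξ ∈ Ioc (1 : ℝ) 2
      exact ⟨by linarith, h2⟩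
  unfold multiplicity
  rw [hs, Set.encard_singleton]

theorem ae_exists {p : ℝ → Prop} (h : ∀ᵐ ξ : ℝ, p ξ) {a b : ℝ} (hab : a < b) :
    ∃ ξ ∈ Ioc a b, p ξ := by
  by_contra hcon
  push Not at hcon
  have h1 : Ioc a b ⊆ {ξ | ¬ p ξ} := fun ξ hξ => hcon ξ hξ
  have h2 := measure_mono_null h1 (ae_iff.1 h)
  rw [Real.volume_Ioc, ENNReal.ofReal_eq_zero] at h2
  linarith

/-- On `G = ℝ` there is a Riesz wavelet collection, with `0` in every `Λ i`, whose system is not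
orthogonal and for which `Σ_{a ∈ A} 1_{aΩ}` is not almost everywhere equal to a constant. -/
theorem result :
    ∃ (m : ℕ) (Ω : Fin m → Set ℝ) (A : Set ℝ) (Λ : Fin m → Set ℝ)
      (ψ : Fin m → Lp ℂ 2 (volume : Measure ℝ))
      (v : ((i : Fin m) × (Λ i) × A) → Lp ℂ 2 (volume : Measure ℝ)),
      IsSystem Ω A Λ ψ v ∧ (∀ i, (0 : ℝ) ∈ Λ i) ∧ IsRieszBasis v ∧
      (∃ j j', j ≠ j' ∧ inner ℂ (v j) (v j') ≠ 0) ∧
      ∀ k : ℕ∞, ¬ ∀ᵐ ξ : ℝ, multiplicity A (⋃ i, Ω i) ξ = k := by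
  obtain ⟨e, he⟩ := exists_equiv
  have hind : ∀ i : Fin 3, MemLp ((Pool.Agent.V11212.RW.Om i).indicator (fun _ => (1 : ℂ))) 2
      (volume : Measure ℝ) ∧
      Integrable ((Pool.Agent.V11212.RW.Om i).indicator (fun _ => (1 : ℂ))) volume ∧
      MeasurableSet (Pool.Agent.V11212.RW.Om i) ∧ volume (Pool.Agent.V11212.RW.Om i) = 1 := by
    intro i
    have key : ∀ u w : ℝ, w - u = 1 → MemLp ((Ioc u w).indicator (fun _ => (1 : ℂ))) 2
        (volume : Measure ℝ) ∧ Integrable ((Ioc u w).indicator (fun _ => (1 : ℂ))) volume ∧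
        MeasurableSet (Ioc u w) ∧ volume (Ioc u w) = 1 := by
      intro u w h
      have hv : volume (Ioc u w) = 1 := by
        rw [Real.volume_Ioc, h, ENNReal.ofReal_one]
      refine ⟨?_, ?_, measurableSet_Ioc, hv⟩
      · exact memLp_indicator_const 2 measurableSet_Ioc 1 (Or.inr (by rw [hv]; exact ENNReal.one_ne_top))
      · rw [← memLp_one_iff_integrable]
        exact memLp_indicator_const 1 measurableSet_Ioc 1 (Or.inr (by rw [hv]; exact ENNReal.one_ne_top))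
    fin_cases i
    · exact key 1 2 (by norm_num)
    · exact key 2 3 (by norm_num)
    · exact key (-2) (-1) (by norm_num)
  refine ⟨3, Pool.Agent.V11212.RW.Om, range (fun n : ℤ => (2 : ℝ) ^ n),
    fun i => range (fun k : ℤ => Pool.Agent.V11212.RW.cc i * k),
    fun i => 𝓕⁻ ((hind i).1.toLp _), fun j => Pool.Agent.V11212.RW.VK (e.symm j), ?_, ?_, ?_, ?_, ?_⟩
  · refine ⟨countable_range _, ?_, fun i => countable_range _, fun i => (hind i).2.2.1, ?_, ?_, ?_,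
      ?_, ?_⟩
    · rintro _ ⟨n, rfl⟩
      positivity
    · intro i
      rw [(hind i).2.2.2]
      exact one_pos
    · intro i
      rw [(hind i).2.2.2]
      exact ENNReal.one_lt_top
    · intro i j hij
      rw [Set.disjoint_left]
      intro x hx hy
      apply hij
      have k0 : ∀ {x : ℝ}, x ∈ Pool.Agent.V11212.RW.Om 0 → 1 < x ∧ x ≤ 2 := fun h => h
      have k1 : ∀ {x : ℝ}, x ∈ Pool.Agent.V11212.RW.Om 1 → 2 < x ∧ x ≤ 3 := fun h => h
      have k2 : ∀ {x : ℝ}, x ∈ Pool.Agent.V11212.RW.Om 2 → -2 < x ∧ x ≤ -1 := fun h => h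
      fin_cases i <;> fin_cases j
      · rfl
      · exfalso; linarith [(k0 hx).2, (k1 hy).1]
      · exfalso; linarith [(k0 hx).1, (k2 hy).2]
      · exfalso; linarith [(k1 hx).1, (k0 hy).2]
      · rfl
      · exfalso; linarith [(k1 hx).1, (k2 hy).2]
      · exfalso; linarith [(k2 hx).2, (k0 hy).1]
      · exfalso; linarith [(k2 hx).2, (k1 hy).1]
      · rfl
    · intro i
      have h1 : 𝓕 (𝓕⁻ ((hind i).1.toLp _) : Lp ℂ 2 (volume : Measure ℝ)) = (hind i).1.toLp _ :=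
        (Lp.fourierTransformₗᵢ ℝ ℂ).apply_symm_apply _
      rw [h1]
      exact (hind i).1.coeFn_toLp
    · intro i l a
      obtain ⟨κ, hκ⟩ : ∃ κ, e κ = ⟨i, l, a⟩ := ⟨e.symm _, e.apply_symm_apply _⟩
      have h1 : e.symm ⟨i, l, a⟩ = κ := by
        rw [← hκ, e.symm_apply_apply]
      show Pool.Agent.V11212.RW.VK (e.symm ⟨i, l, a⟩) =ᵐ[volume] _
      rw [h1]
      rw [he κ] at hκ
      obtain ⟨⟨i', n⟩, k⟩ := κ
      have h0 : i' = i := congrArg Sigma.fst hκ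
      subst h0
      have h2 := eq_of_heq (Sigma.mk.inj_iff.1 hκ).2
      have h3 : Pool.Agent.V11212.RW.cc i' * (k : ℝ) = l := congrArg (fun p => (p.1 : ℝ)) h2
      have h4 : (2 : ℝ) ^ n = a := congrArg (fun p => (p.2 : ℝ)) h2
      rw [← h3, ← h4]
      refine (Pool.Agent.V11212.RW.VK_ae ((i', n), k)).trans ?_
      apply wav_congr _ _ (by positivity)
      exact (Pool.Agent.V11212.RW.fourierInv_ae (hind i').2.1 (hind i').1).symm
  · intro i
    exact ⟨0, by simp⟩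
  · exact Pool.Agent.V11212.RW.VK_riesz.reindex e
  · refine ⟨e ((0, 0), 0), e ((1, -1), 0), ?_, ?_⟩
    · intro h
      have := e.injective h
      simp at this
    · simp only [e.symm_apply_apply]
      exact Pool.Agent.V11212.RW.VK_not_orth
  · intro k hk
    obtain ⟨ξ, h1, h2⟩ := ae_exists hk (show (1 : ℝ) < 3 / 2 by norm_num)
    obtain ⟨ξ', h1', h2'⟩ := ae_exists hk (show (3 / 2 : ℝ) < 2 by norm_num)
    have h3 := mult_gt h1.1 h1.2
    have h4 := mult_one h1'.1 h1'.2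
    rw [h2, ← h2', h4] at h3
    exact absurd h3 (by decide)

end Pool.Agent.Results.MP_38bcdd_an.NoMultiTiling
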